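import Pool.Agent.Helper68.EP.St4

set_option autoImplicit false

namespace Pool.Agent.Helper42.EP

open Pool.Agent.Helper68.EP Pool.Agent.Helper20.RG
open Pool.Agent.Helper20.RL (RQ Rich BM Fml)

theorem pow64 (u : ℕ) (hu : 10 ≤ u) : 64 * u ≤ 2 ^ u := by
  induction u, hu using Nat.le_induction with
  | base => norm_num
  | succ n hn ih =>
    rw [pow_succ]
    omega

theorem hEN1 : StEN1 := by
  intro P
  refine ⟨2 * P.c0 + 16, by omega, ?_⟩
  intro u θ hu hθ0 hθ1
  have hs := P.hs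
  have hsp := P.hsp
  have hp := P.hp
  have hε := P.hε
  have hεs := P.hεs
  have huR : (2 * P.c0 + 16 : ℝ) ≤ u := by exact_mod_cast hu
  have hu16 : (16 : ℝ) ≤ u := by
    have : (0 : ℝ) ≤ P.c0 := Nat.cast_nonneg _
    linarith
  have hc0 : (0 : ℝ) ≤ P.c0 := Nat.cast_nonneg _
  have hu0 : (0 : ℝ) ≤ u := by linarith
  have hpe : (1 : ℝ) ≤ P.p - P.ε := by linarith
  -- bounds for q0
  have hq0le : (q0 P u : ℝ) ≤ (P.p - P.ε) * u := by
    unfold q0
    exact Nat.floor_le (by positivity)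
  have hq0gt : (P.p - P.ε) * u - 1 < (q0 P u : ℝ) := by
    unfold q0
    have := Nat.lt_floor_add_one ((P.p - P.ε) * (u : ℝ))
    linarith
  have hq0u : u ≤ q0 P u := by
    unfold q0
    apply Nat.le_floor
    nlinarith
  -- bounds for q1
  have hq1lt : (q1 P u : ℝ) < P.p * u + 1 + P.c0 := by
    unfold q1
    push_cast
    have := Nat.ceil_lt_add_one (show (0 : ℝ) ≤ P.p * u by
      have : (0 : ℝ) ≤ P.p := by linarith
      positivity)
    linarith
  have hq1ge : P.p * u ≤ (q1 P u : ℝ) := by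
    unfold q1
    push_cast
    have := Nat.le_ceil (P.p * (u : ℝ))
    linarith
  have hdiff : (q1 P u : ℝ) - q0 P u ≤ P.ε * u + P.c0 + 2 := by
    have : (P.p - P.ε) * u = P.p * u - P.ε * u := by ring
    linarith
  have hlt : q0 P u < q1 P u := by
    have : (q0 P u : ℝ) < q1 P u := by
      have h1 : (P.p - P.ε) * u < P.p * u := by nlinarith
      linarith
    exact_mod_cast this
  have hεu : P.ε * u ≤ u / 64 := by
    have : P.ε ≤ 1 / 64 := by linarith
    nlinarith
  refine ⟨⟨⟨lt_of_lt_of_le (Real.rpow_pos_of_pos two_pos _) hθ0, hθ1⟩, by omega, ⟨by omega, hlt⟩,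
    ?_, ?_⟩, by linarith⟩
  · exact (pow64 u (by omega)).trans (Nat.pow_le_pow_right two_pos hq0u)
  · have hθp : (0 : ℝ) < θ := lt_of_lt_of_le (Real.rpow_pos_of_pos two_pos _) hθ0
    have e1 : et P u (q0 P u) = (2 : ℝ) ^ ((q0 P u : ℝ) - q1 P u - 4) := by
      unfold et
      rw [← Real.rpow_intCast]
      congr 1
      push_cast
      ring
    have e2 : (1024 : ℝ) = (2 : ℝ) ^ (10 : ℝ) := by norm_num
    unfold DD
    rw [e1, e2, ← Real.rpow_add two_pos]
    calc (2 : ℝ) ^ (10 + -(P.s * u)) ≤ (2 : ℝ) ^ (((q0 P u : ℝ) - q1 P u - 4) + -(8 * P.g * u)) := by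
          apply Real.rpow_le_rpow_of_exponent_le one_le_two
          have hg : P.g = (P.s - 1) / 64 := rfl
          rw [hg]
          have h3 : P.ε * u ≤ (P.s - 1) / 64 * u := by
            apply mul_le_mul_of_nonneg_right _ hu0
            linarith
          have h4 : 0 ≤ (P.s - 1) * u := mul_nonneg (by linarith) hu0
          nlinarith
      _ = (2 : ℝ) ^ ((q0 P u : ℝ) - q1 P u - 4) * (2 : ℝ) ^ (-(8 * P.g * u)) :=
          Real.rpow_add two_pos _ _
      _ ≤ (2 : ℝ) ^ ((q0 P u : ℝ) - q1 P u - 4) * θ :=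
          mul_le_mul_of_nonneg_left hθ0 (Real.rpow_pos_of_pos two_pos _).le

end Pool.Agent.Helper42.EP
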