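import Pool.Agent.Helper68.EP.St6
import Pool.Agent.Helper79.RG.M_CO2

set_option autoImplicit false

open MeasureTheory Set Filter Topology
open scoped ENNReal RealInnerProductSpace

namespace Pool.Agent.Helper42.EP

open Pool.Agent.Helper68.EP Pool.Agent.Helper20.RG
open Pool.Agent.Helper20.RL (RQ Rich BM Fml)

theorem hFM (_hPT : Pool.Agent.Helper20.RG.StPT) (hFA : StFA) : StFM := by
  intro φ τ A p c hG hA hGap hp1 hp2 hp3
  obtain ⟨C, hC, hkey⟩ := hFA φ τ A p c hG hA hGap hp1 hp2 hp3
  haveI : IsFiniteMeasure (arc c φ) := by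
    unfold arc
    infer_instance
  exact Pool.Agent.Helper79.RG.co2_gen (arc c φ) p C (by linarith) hC hkey

end Pool.Agent.Helper42.EP
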